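import Pool.Agent.Helper79_WRA.Stmt
import Pool.Agent.Helper79_WRA.Basic

/-!
WRA, module TZERO: if `C_N(c)` has a nontrivial normal `ℓ`-subgroup then the inner sum vanishes.
-/

open scoped BigOperators

noncomputable section

namespace Pool.Agent.Helper79_WRA.H46

open Pool.Agent.Helper51_AWC

section

variable {Γ : Type} [Group Γ]

theorem mem_cent {N : Subgroup Γ} {c : Finset (Subgroup Γ)} {x : Γ} :
    x ∈ cent N c ↔ x ∈ N ∧ ∀ D ∈ c, ∀ y ∈ D, y * x = x * y := by
  unfold cent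
  rw [Subgroup.mem_inf]
  simp only [Subgroup.mem_iInf, Subgroup.mem_centralizer_iff, SetLike.mem_coe]

theorem conj_mem_cent {N : Subgroup Γ} (hN : N.Normal) {c : Finset (Subgroup Γ)} {g x : Γ}
    (hg : g ∈ stab c) (hx : x ∈ cent N c) : g * x * g⁻¹ ∈ cent N c := by
  rw [mem_cent] at hx ⊢
  refine ⟨hN.conj_mem x hx.1 g, fun D hD y hy => ?_⟩
  have h1 := (mem_stab.1 hg) D hD
  rw [← h1, mem_conjS] at hy
  have h2 := hx.2 D hD _ hy
  have h3 : g * (g⁻¹ * y * g * x) * g⁻¹ = g * (x * (g⁻¹ * y * g)) * g⁻¹ := by rw [h2]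
  calc y * (g * x * g⁻¹) = g * (g⁻¹ * y * g * x) * g⁻¹ := by group
    _ = g * (x * (g⁻¹ * y * g)) * g⁻¹ := h3
    _ = g * x * g⁻¹ * y := by group

/-- conjugation by an element of `stab c` on `C_N(c)` -/
def conjCent {N : Subgroup Γ} (hN : N.Normal) {c : Finset (Subgroup Γ)} {g : Γ}
    (hg : g ∈ stab c) : cent N c ≃* cent N c where
  toFun x := ⟨g * x * g⁻¹, conj_mem_cent hN hg x.2⟩
  invFun x := ⟨g⁻¹ * x * g, by
    have := conj_mem_cent hN ((stab c).inv_mem hg) x.2
    rwa [inv_inv] at this⟩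
  left_inv x := by apply Subtype.ext; simp [mul_assoc]
  right_inv x := by apply Subtype.ext; simp [mul_assoc]
  map_mul' x y := by apply Subtype.ext; simp [mul_assoc]

theorem conjS_opCore [Finite Γ] (ℓ : ℕ) [Fact ℓ.Prime] {N : Subgroup Γ} (hN : N.Normal)
    {c : Finset (Subgroup Γ)} {g : Γ} (hg : g ∈ stab c) :
    conjS g ((opCore ℓ (cent N c)).map (cent N c).subtype) =
      (opCore ℓ (cent N c)).map (cent N c).subtype := by
  have h1 := opCore_equiv ℓ (conjCent hN hg)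
  rw [mapE_apply] at h1
  conv_rhs => rw [← h1]
  unfold conjS
  rw [Subgroup.map_map, Subgroup.map_map]
  rfl

end

theorem tzero (hCone : ConeStmt) : TZeroStmt := by
  intro ℓ hℓ Γ _ _ N hN w c hne
  classical
  set H := cent N c with hH
  set O : Subgroup Γ := (opCore ℓ H).map H.subtype with hO
  obtain ⟨o1, o2, -⟩ := opCore_spec ℓ H
  have hOH : O ≤ H := Subgroup.map_subtype_le _
  have hOne : ¬ O ≤ ⊥ := by
    intro h
    apply hne
    rw [le_bot_iff, hO, Subgroup.map_eq_bot_iff_of_injective _ H.subtype_injective] at h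
    exact h
  have hsup : ∀ x : Subgroup Γ, x ≤ H →
      x ⊔ O = ((x.subgroupOf H) ⊔ opCore ℓ H).map H.subtype := by
    intro x hx
    rw [Subgroup.map_sup, Subgroup.map_subgroupOf_eq_of_le hx]
  have hjp : ∀ x ∈ psubIn ℓ H, x ⊔ O ∈ psubIn ℓ H := by
    intro x hx
    rw [mem_psubIn] at hx ⊢
    refine ⟨sup_le hx.1 hOH, ?_⟩
    rw [hsup x hx.1]
    exact (IsPGroup.to_sup_of_normal_right
      (hx.2.comap_of_injective _ H.subtype_injective) o2).map _
  have hstab : ∀ (d : Finset (Subgroup Γ)) (x : Subgroup Γ), x ∈ d →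
      stab c ⊓ stab (insert (x ⊔ O) d) = stab c ⊓ stab d := by
    intro d x hx
    ext g
    rw [Subgroup.mem_inf, Subgroup.mem_inf, mem_stab (d := insert (x ⊔ O) d),
      mem_stab (d := d)]
    constructor
    · rintro ⟨h1, h2⟩
      exact ⟨h1, fun D hD => h2 D (Finset.mem_insert_of_mem hD)⟩
    · rintro ⟨h1, h2⟩
      refine ⟨h1, fun D hD => ?_⟩
      rcases Finset.mem_insert.1 hD with rfl | hD
      · have h3 : conjS g (x ⊔ O) = conjS g x ⊔ conjS g O := Subgroup.map_sup _ _ _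
        rw [h3, h2 x hx, hO, hH, conjS_opCore ℓ hN h1]
      · exact h2 D hD
  unfold tsum
  refine hCone (Subgroup Γ) (psubIn ℓ H) ⊥ O (fun x => x ⊔ O) hOne (fun _ _ => bot_le) hjp
    (fun _ _ => le_sup_left) (fun _ _ => le_sup_right) (fun x _ y _ h1 h2 => sup_le h1 h2)
    (fun v => (-1) ^ (v.card + 1) * w (stab c ⊓ stab v)) ?_
  intro d _ x hx hnot
  rw [hstab d x hx, Finset.card_insert_of_notMem hnot]
  ring

end Pool.Agent.Helper79_WRA.H46
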