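import Pool.Agent.Helper79_WRA.StmtB

/-!
WRA, module DZO: orthogonality of characters of defect zero and twists, modulo `M`.
-/

open scoped BigOperators

noncomputable section

namespace Pool.Agent.Helper79_WRA.H46

open Pool.Agent.Helper51_AWC

theorem dzo : DzoStmt := by
  intro ℓ hℓ M hM hℓM G _ _ _hcore n ξ hξ ξ' hξ' η hη htw
  classical
  have := Fintype.ofFinite G
  have := Fintype.ofFinite (ConjClasses G)
  have hξI : ξ ∈ Irr G := hξ.1
  have hξI' : ξ' ∈ Irr G := hξ'.1
  have hηI : η ∈ Irr G := hη.1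
  have hchar : CharP (FF M) ℓ := by
    have h0 : ((ℓ : ℕ) : FF M) = 0 := by
      have : (Ideal.Quotient.mk M) (ℓ : integralClosure ℤ ℂ) = 0 :=
        Ideal.Quotient.eq_zero_iff_mem.2 hℓM
      rw [← this, map_natCast]
    have hnt : Nontrivial (FF M) := Ideal.Quotient.nontrivial_iff.2 hM.ne_top
    exact (CharP.charP_iff_prime_eq_zero hℓ.out).2 h0
  -- the sum over the classes
  have hsum : ∀ (φ ψ : G → ℂ), φ ∈ Irr G → (∀ g h, ψ (h * g * h⁻¹) = ψ g) →
      (∑ g, φ g * ψ g⁻¹) / φ 1 = ∑ K : ConjClasses G,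
        omega (MonoidHom.id G) φ (Quotient.out K) * ψ (Quotient.out K)⁻¹ := by
    intro φ ψ hφ hψ
    rw [sum_classes (irr_one_ne hφ) hψ, mul_div_cancel_left₀ _ (irr_one_ne hφ)]
  have hval : val (fun y => (η y⁻¹) ^ (ℓ ^ n)) ξ' = ∑ K : ConjClasses G,
      omega (MonoidHom.id G) ξ' (Quotient.out K) * (η (Quotient.out K)⁻¹) ^ (ℓ ^ n) := by
    rw [val_eq, ← hsum ξ' (fun g => (η g) ^ (ℓ ^ n)) hξI'
      (fun g h => by simp only [irr_conj hηI])]
    congr 1
    exact Finset.sum_congr rfl fun g _ => mul_comm _ _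
  have hint : ∀ K : ConjClasses G, IsIntegral ℤ (omega (MonoidHom.id G) ξ' (Quotient.out K) *
      (η (Quotient.out K)⁻¹) ^ (ℓ ^ n)) := fun K =>
    (omega_integral _ hξI' _).mul ((irr_integral hηI _).pow _)
  have hred : red M (val (fun y => (η y⁻¹) ^ (ℓ ^ n)) ξ') =
      (red M ((∑ g, ξ g * η g⁻¹) / ξ 1)) ^ (ℓ ^ n) := by
    rw [hval, hsum ξ η hξI (fun g h => irr_conj hηI g h),
      red_sum _ _ (fun K _ => hint K),
      red_sum _ _ (fun K _ => (omega_integral _ hξI _).mul (irr_integral hηI _)),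
      sum_pow_char_pow]
    refine Finset.sum_congr rfl fun K _ => ?_
    rw [red_mul (omega_integral _ hξI' _) ((irr_integral hηI _).pow _),
      red_mul (omega_integral _ hξI _) (irr_integral hηI _), mul_pow,
      red_pow (irr_integral hηI _)]
    congr 1
    exact htw (Quotient.out K)
  refine ⟨?_, ?_, ?_⟩
  · rw [hval]
    exact IsIntegral.sum _ fun K _ => hint K
  · rintro rfl
    rw [hred, irr_orth_self hξI, Nat.card_eq_fintype_card]
  · intro hne
    rw [hred, irr_orth_ne hξI hηI (Ne.symm hne), zero_div, red_zero,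
      zero_pow (pow_ne_zero n hℓ.out.ne_zero)]

end Pool.Agent.Helper79_WRA.H46
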