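import Pool.Agent.Helper79_WRA.StmtC
import Pool.Agent.Helper83_WRA.Pos
import Pool.Agent.Helper51_AWC.Abelian

/-!
WRA, module AFC: the blocks of `AGL_1(F)`.
-/

open scoped BigOperators

noncomputable section

namespace Pool.Agent.Helper79_WRA.H46

open Pool.Agent.Helper51_AWC

/-- irreducible characters of commutative groups are linear -/
theorem irr_comm {H : Type} [Group H] [Finite H] (hcomm : ∀ x y : H, x * y = y * x)
    {ϑ : H → ℂ} (hϑ : ϑ ∈ Irr H) : ∃ ψ : H →* ℂˣ, ϑ = fun g => (ψ g : ℂ) := by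
  classical
  have := Fintype.ofFinite H
  have horth := irr_orth_self hϑ
  obtain ⟨d, hd, hd1⟩ := irr_one hϑ
  obtain ⟨n, ρ, hρ, rfl⟩ := hϑ
  have hn : n = d := by
    have h1 : ρ.character 1 = n := by simp
    rw [h1] at hd1
    exact_mod_cast hd1
  subst hn
  have hn0 : (n : ℂ) ≠ 0 := by exact_mod_cast hd.ne'
  have hsc : ∀ g, ∃ c : ℂ, ρ g = c • LinearMap.id := fun g =>
    schur_scalar ρ (ρ g) (fun h => by
      have h1 : ρ g * ρ h = ρ h * ρ g := by rw [← map_mul, ← map_mul, hcomm]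
      exact h1)
  choose c hc using hsc
  have htr : ∀ g, ρ.character g = c g * n := by
    intro g
    show LinearMap.trace ℂ (Fin n → ℂ) (ρ g) = _
    rw [hc g, map_smul, smul_eq_mul, LinearMap.trace_id]
    simp
  have hmul : ∀ g h, c (g * h) = c g * c h := by
    intro g h
    have h1 : (c (g * h)) • (LinearMap.id : (Fin n → ℂ) →ₗ[ℂ] (Fin n → ℂ)) =
        (c g * c h) • LinearMap.id := by
      rw [← hc (g * h), map_mul, hc g, hc h]
      ext v
      simp [mul_smul]
      ring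
    have h2 := congrArg (LinearMap.trace ℂ (Fin n → ℂ)) h1
    rw [map_smul, map_smul, LinearMap.trace_id, smul_eq_mul, smul_eq_mul] at h2
    have h3 : ((Module.finrank ℂ (Fin n → ℂ) : ℕ) : ℂ) = n := by simp
    rw [h3] at h2
    exact mul_right_cancel₀ hn0 h2
  have hone : c 1 = 1 := by
    have h1 := htr 1
    rw [hd1] at h1
    have h2 : (1 : ℂ) * n = c 1 * n := by rw [one_mul]; exact h1
    exact (mul_right_cancel₀ hn0 h2).symm
  have hn1 : (n : ℂ) = 1 := by
    have h1 : ∀ g, ρ.character g * ρ.character g⁻¹ = (n : ℂ) ^ 2 := by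
      intro g
      rw [htr, htr]
      have h2 : c g * c g⁻¹ = 1 := by rw [← hmul, mul_inv_cancel, hone]
      calc c g * n * (c g⁻¹ * n) = (c g * c g⁻¹) * (n : ℂ) ^ 2 := by ring
        _ = (n : ℂ) ^ 2 := by rw [h2, one_mul]
    rw [Finset.sum_congr rfl (fun g _ => h1 g), Finset.sum_const, nsmul_eq_mul,
      Finset.card_univ] at horth
    have hcard : ((Fintype.card H : ℕ) : ℂ) ≠ 0 := by exact_mod_cast Fintype.card_ne_zero
    have h3 : (n : ℂ) ^ 2 = 1 := by
      apply mul_left_cancel₀ hcard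
      rw [horth, mul_one]
    have h4 : (n : ℕ) ^ 2 = 1 := by exact_mod_cast h3
    have h5 : n = 1 := by
      rcases Nat.pow_eq_one.1 h4 with h | h
      · exact h
      · omega
    rw [h5]; simp
  let ψ0 : H →* ℂ := { toFun := c, map_one' := hone, map_mul' := hmul }
  refine ⟨ψ0.toHomUnits, ?_⟩
  funext g
  rw [htr, hn1, mul_one]
  rfl

section aff

variable {F : Type} [Field F]

theorem conj_a (x y : Aff F) : (y * x * y⁻¹).a = x.a := by
  rw [Aff.mul_a, Aff.mul_a, Aff.inv_a, mul_comm y.a, mul_inv_cancel_right]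

theorem isConj_a {g h : Aff F} (hh : IsConj g h) : h.a = g.a := by
  obtain ⟨c, rfl⟩ := isConj_iff.1 hh
  exact conj_a g c

theorem conj_b (x y : Aff F) :
    (y * x * y⁻¹).b = (y.a : F) * x.b + (1 - (x.a : F)) * y.b := by
  rw [Aff.mul_b, Aff.mul_b, Aff.mul_a, Aff.inv_b, Units.val_mul]
  have : (y.a : F) * ((y.a⁻¹ : Fˣ) : F) = 1 := by
    rw [← Units.val_mul, mul_inv_cancel, Units.val_one]
  linear_combination (-(x.a : F) * y.b) * this

theorem isConj_iff_a {g h : Aff F} (hg : g.a ≠ 1) : IsConj g h ↔ h.a = g.a := by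
  refine ⟨isConj_a, fun hh => ?_⟩
  have h1 : (1 : F) - (g.a : F) ≠ 0 := by
    intro h0
    apply hg
    apply Units.ext
    rw [Units.val_one]
    linear_combination -h0
  rw [isConj_iff]
  refine ⟨⟨1, (h.b - g.b) / (1 - (g.a : F))⟩, ?_⟩
  apply Aff.ext
  · rw [conj_a, hh]
  · rw [conj_b]
    show ((1 : Fˣ) : F) * g.b + (1 - (g.a : F)) * ((h.b - g.b) / (1 - (g.a : F))) = h.b
    rw [mul_div_cancel₀ _ h1, Units.val_one]
    ring

theorem isConj_iff_b {g h : Aff F} (hg : g.a = 1) (hb : g.b ≠ 0) :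
    IsConj g h ↔ h.a = 1 ∧ h.b ≠ 0 := by
  constructor
  · intro hh
    refine ⟨(isConj_a hh).trans hg, ?_⟩
    obtain ⟨c, rfl⟩ := isConj_iff.1 hh
    rw [conj_b, hg, Units.val_one, sub_self, zero_mul, add_zero]
    exact mul_ne_zero c.a.ne_zero hb
  · rintro ⟨h1, h2⟩
    rw [isConj_iff]
    refine ⟨⟨Units.mk0 (h.b / g.b) (div_ne_zero h2 hb), 0⟩, ?_⟩
    apply Aff.ext
    · rw [conj_a, hg, h1]
    · rw [conj_b]
      show (h.b / g.b) * g.b + (1 - (g.a : F)) * 0 = h.b
      rw [mul_zero, add_zero, div_mul_cancel₀ _ hb]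

variable [Fintype F] [DecidableEq F]

theorem sum_aff [Fintype (Aff F)] (φ : Aff F → ℂ) :
    ∑ h, φ h = ∑ a : Fˣ, ∑ b : F, φ ⟨a, b⟩ := by
  rw [← Fintype.sum_prod_type (fun p : Fˣ × F => φ ⟨p.1, p.2⟩)]
  exact Fintype.sum_equiv (Aff.equivProd F) _ _ (fun x => rfl)

end aff

open Classical in
theorem omega_a {F : Type} [Field F] [Finite F] (ψ : Fˣ →* ℂˣ) {g : Aff F} (hg : g.a ≠ 1) :
    omega (MonoidHom.id (Aff F)) (fun x => (ψ x.a : ℂ)) g = (Nat.card F : ℂ) * ψ g.a := by
  have := Fintype.ofFinite F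
  have := Fintype.ofFinite (Aff F)
  rw [omega_eq, Aff.one_a, map_one, Units.val_one, div_one, sum_aff,
    Finset.sum_eq_single_of_mem g.a (Finset.mem_univ _)]
  · rw [Finset.sum_congr rfl (g := fun _ => (ψ g.a : ℂ))]
    · rw [Finset.sum_const, nsmul_eq_mul, Finset.card_univ, Nat.card_eq_fintype_card]
    · intro b _
      rw [if_pos]
      exact (isConj_iff_a hg).2 rfl
  · intro a _ ha
    apply Finset.sum_eq_zero
    intro b _
    rw [if_neg]
    intro h
    exact ha ((isConj_iff_a hg).1 h)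

open Classical in
theorem omega_b {F : Type} [Field F] [Finite F] (ψ : Fˣ →* ℂˣ) {g : Aff F} (hg : g.a = 1)
    (hb : g.b ≠ 0) :
    omega (MonoidHom.id (Aff F)) (fun x => (ψ x.a : ℂ)) g = (Nat.card F : ℂ) - 1 := by
  have := Fintype.ofFinite F
  have := Fintype.ofFinite (Aff F)
  rw [omega_eq, Aff.one_a, map_one, Units.val_one, div_one, sum_aff,
    Finset.sum_eq_single_of_mem (1 : Fˣ) (Finset.mem_univ _)]
  · have h1 : ∀ b : F, (if IsConj g ((MonoidHom.id (Aff F)) ⟨1, b⟩) then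
        ((ψ (1 : Fˣ) : ℂˣ) : ℂ) else 0) = 1 - if b = 0 then (1 : ℂ) else 0 := by
      intro b
      have e : IsConj g ((MonoidHom.id (Aff F)) ⟨1, b⟩) ↔ b ≠ 0 := by
        rw [MonoidHom.id_apply, isConj_iff_b hg hb]
        exact ⟨fun h => h.2, fun h => ⟨rfl, h⟩⟩
      by_cases hb0 : b = 0
      · rw [if_neg (fun h => (e.1 h) hb0), if_pos hb0, sub_self]
      · rw [if_pos (e.2 hb0), if_neg hb0, map_one, Units.val_one, sub_zero]
    rw [Finset.sum_congr rfl (fun b _ => h1 b), Finset.sum_sub_distrib, Finset.sum_const,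
      nsmul_eq_mul, mul_one, Finset.card_univ, Nat.card_eq_fintype_card]
    simp
  · intro a _ ha
    apply Finset.sum_eq_zero
    intro b _
    rw [if_neg]
    intro h
    exact ha ((isConj_iff_b hg hb).1 h).1

open Classical in
theorem omega_C0 {F : Type} [Field F] [Finite F] {ϑ : Aff.C0 F → ℂ} (g : Aff F) :
    omega (Aff.C0 F).subtype ϑ g =
      if g.a ≠ 1 ∨ g.b = 0 then ϑ ⟨⟨g.a, 0⟩, rfl⟩ / ϑ 1 else 0 := by
  have := Fintype.ofFinite (Aff.C0 F)
  have key : ∀ h : Aff.C0 F, IsConj g ((Aff.C0 F).subtype h) ↔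
      ((g.a ≠ 1 ∨ g.b = 0) ∧ h = ⟨⟨g.a, 0⟩, rfl⟩) := by
    intro h
    have hb : (h : Aff F).b = 0 := h.2
    rw [Subgroup.coe_subtype]
    constructor
    · intro hh
      have ha := isConj_a hh
      refine ⟨?_, ?_⟩
      · by_contra hcon
        push Not at hcon
        exact ((isConj_iff_b hcon.1 hcon.2).1 hh).2 hb
      · apply Subtype.ext
        exact Aff.ext ha hb
    · rintro ⟨h1, rfl⟩
      by_cases ha : g.a = 1
      · have hb : g.b = 0 := by
          rcases h1 with h1 | h1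
          · exact absurd ha h1
          · exact h1
        have : g = ⟨g.a, 0⟩ := Aff.ext rfl hb
        rw [show ((⟨⟨g.a, 0⟩, rfl⟩ : Aff.C0 F) : Aff F) = g from this.symm]
      · exact (isConj_iff_a ha).2 rfl
  rw [omega_eq]
  by_cases h1 : g.a ≠ 1 ∨ g.b = 0
  · rw [if_pos h1]
    congr 1
    rw [Finset.sum_eq_single_of_mem (⟨⟨g.a, 0⟩, rfl⟩ : Aff.C0 F) (Finset.mem_univ _)]
    · rw [if_pos ((key _).2 ⟨h1, rfl⟩)]
    · intro h _ hne
      rw [if_neg]
      intro hh
      exact hne ((key h).1 hh).2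
  · rw [if_neg h1, Finset.sum_eq_zero, zero_div]
    intro h _
    rw [if_neg]
    intro hh
    exact h1 ((key h).1 hh).1

theorem afc (hAfb : AfbStmt) : AfcStmt := by
  intro ℓ hℓ M hM hℓM F _ _ hdvd hcore χ hχ hLD
  classical
  have := Fintype.ofFinite F
  have hMp : M.IsPrime := hM.isPrime
  set q : ℕ := Nat.card F with hq
  have hq2 : 2 ≤ q := by
    rw [hq, Nat.card_eq_fintype_card]
    exact Fintype.one_lt_card
  have hq1 : Cong M ((q : ℂ) - 1) 0 := by
    have h1 : ((q - 1 : ℕ) : ℂ) = (q : ℂ) - 1 := by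
      rw [Nat.cast_sub (by omega)]; simp
    rw [← h1]
    exact cong_nat_of_dvd hℓM hdvd
  have hq1' : Cong M (q : ℂ) 1 := by rw [cong_iff_sub]; exact hq1
  have hpos := (H83.pos ℓ M hℓM (Aff F) hcore).1
  have hcardU : Nat.card Fˣ = q - 1 := by
    rw [hq, Nat.card_units]
  have hcardG : (Nat.card (Aff F) : ℂ) = ((q : ℂ) - 1) * q := by
    rw [Nat.card_congr (Aff.equivProd F), Nat.card_prod, hcardU]
    push_cast [Nat.cast_sub (show 1 ≤ q by omega)]
    rfl
  -- the big character has defect zero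
  have hρ : ∀ θ ∈ Irr (Aff F), (∀ g, Cong M (omega (MonoidHom.id (Aff F)) θ g)
      (omega (MonoidHom.id (Aff F)) χ g)) → ∃ ψ' : Fˣ →* ℂˣ, θ = fun x => (ψ' x.a : ℂ) := by
    intro θ hθ hcong
    rcases (hAfb F θ).1 hθ with h | h
    · exact h
    · exfalso
      have hLD' : LargeDefect ℓ M θ := by
        obtain ⟨ψ, h1, h2, h3⟩ := hLD
        exact ⟨ψ, h1, fun g => (h2 g).trans (hcong g).symm, h3⟩
      have h1 := (hpos θ hθ).1 hLD'
      have h2 : θ 1 = (q : ℂ) - 1 := by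
        rw [h]
        simp [Aff.one_a, Aff.one_b, hq]
      have hq0 : (q : ℂ) - 1 ≠ 0 := by
        rw [sub_ne_zero]
        exact_mod_cast (by omega : q ≠ 1)
      rw [h2, hcardG, mul_div_cancel_left₀ _ hq0] at h1
      have hqI : IsIntegral ℤ (q : ℂ) := AI.natCast q
      rw [← red_zero (M := M), red_eq_iff hqI isIntegral_zero] at h1
      exact one_not_cong (hq1'.symm.trans h1)
  obtain ⟨ψ, hψ⟩ := hρ χ hχ (fun g => Cong.refl _)
  set S : Set (Fˣ →* ℂˣ) := {ψ' | ∀ a, Cong M (ψ' a : ℂ) (ψ a : ℂ)} with hS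
  have hint : ∀ (ψ' : Fˣ →* ℂˣ) (a : Fˣ), AI (ψ' a : ℂ) := fun ψ' a =>
    irr_integral (linear_mem_Irr ψ') a
  -- the comparison for an element with `a ≠ 1`
  have hcmp : ∀ (x y : ℂ), AI x → AI y → (Cong M ((q : ℂ) * x) ((q : ℂ) * y) ↔ Cong M x y) := by
    intro x y hx hy
    have h1 : ∀ z : ℂ, AI z → Cong M ((q : ℂ) * z) z := by
      intro z hz
      have := hq1'.mul_right hz
      rwa [one_mul] at this
    constructor
    · intro h
      exact (h1 x hx).symm.trans (h.trans (h1 y hy))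
    · intro h
      exact (h1 x hx).trans (h.trans (h1 y hy).symm)
  -- first set
  have hlab1 : ∀ ψ' : Fˣ →* ℂˣ, (∀ g, Cong M
      (omega (MonoidHom.id (Aff F)) (fun x => (ψ' x.a : ℂ)) g)
      (omega (MonoidHom.id (Aff F)) χ g)) ↔ ψ' ∈ S := by
    intro ψ'
    rw [hψ]
    constructor
    · intro H a
      by_cases ha : a = 1
      · rw [ha, map_one, map_one]; exact Cong.refl _
      · have h1 := H ⟨a, 0⟩
        rw [omega_a ψ' (show (⟨a, 0⟩ : Aff F).a ≠ 1 from ha),
          omega_a ψ (show (⟨a, 0⟩ : Aff F).a ≠ 1 from ha), ← hq,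
          hcmp _ _ (hint _ _) (hint _ _)] at h1
        exact h1
    · intro H g
      by_cases ha : g.a = 1
      · by_cases hb : g.b = 0
        · have : g = 1 := Aff.ext ha hb
          rw [this]
          apply Cong.of_eq
          rw [omega_one (fun _ _ h => h) (by simp), omega_one (fun _ _ h => h) (by simp)]
        · rw [omega_b ψ' ha hb, omega_b ψ ha hb]
          exact Cong.refl _
      · rw [omega_a ψ' ha, omega_a ψ ha, ← hq, hcmp _ _ (hint _ _) (hint _ _)]
        exact H g.a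
  have hA : IrrBlock M (MonoidHom.id (Aff F)) χ =
      (fun ψ' : Fˣ →* ℂˣ => fun x : Aff F => (ψ' x.a : ℂ)) '' S := by
    ext θ
    constructor
    · rintro ⟨h1, h2⟩
      obtain ⟨ψ', rfl⟩ := hρ θ h1 h2
      exact ⟨ψ', (hlab1 ψ').1 h2, rfl⟩
    · rintro ⟨ψ', h1, rfl⟩
      exact ⟨(hAfb F _).2 (Or.inl ⟨ψ', rfl⟩), (hlab1 ψ').2 h1⟩
  -- second set
  have hlab2 : ∀ ψ' : Fˣ →* ℂˣ, (∀ g, Cong M
      (omega (Aff.C0 F).subtype (fun x : Aff.C0 F => (ψ' x.1.a : ℂ)) g)
      (omega (MonoidHom.id (Aff F)) χ g)) ↔ ψ' ∈ S := by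
    intro ψ'
    rw [hψ]
    have h1 : ((1 : Aff.C0 F) : Aff F).a = 1 := rfl
    constructor
    · intro H a
      by_cases ha : a = 1
      · rw [ha, map_one, map_one]; exact Cong.refl _
      · have h2 := H ⟨a, 0⟩
        rw [omega_C0, if_pos (Or.inl ha), omega_a ψ (show (⟨a, 0⟩ : Aff F).a ≠ 1 from ha),
          ← hq] at h2
        rw [h1, map_one, Units.val_one, div_one] at h2
        refine Cong.trans h2 ?_
        have := hq1'.mul_right (hint ψ a)
        rwa [one_mul] at this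
    · intro H g
      rw [omega_C0]
      by_cases ha : g.a = 1
      · by_cases hb : g.b = 0
        · have hg1 : g = 1 := Aff.ext ha hb
          rw [if_pos (Or.inr hb)]
          subst hg1
          apply Cong.of_eq
          rw [omega_one (fun _ _ h => h) (by simp)]
          show ((ψ' 1 : ℂˣ) : ℂ) / ((ψ' 1 : ℂˣ) : ℂ) = 1
          rw [map_one, Units.val_one, div_one]
        · rw [if_neg (by push Not; exact ⟨ha, hb⟩), omega_b ψ ha hb]
          exact hq1.symm
      · rw [if_pos (Or.inl ha), omega_a ψ ha, ← hq, h1, map_one, Units.val_one, div_one]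
        have h3 := (hq1'.mul_right (hint ψ g.a)).symm
        rw [one_mul] at h3
        exact (H g.a).trans h3
  have hcommC : ∀ x y : Aff.C0 F, x * y = y * x := by
    intro x y
    apply Subtype.ext
    have hx : (x : Aff F).b = 0 := x.2
    have hy : (y : Aff F).b = 0 := y.2
    apply Aff.ext
    · show ((x : Aff F) * y).a = ((y : Aff F) * x).a
      rw [Aff.mul_a, Aff.mul_a, mul_comm]
    · show ((x : Aff F) * y).b = ((y : Aff F) * x).b
      rw [Aff.mul_b, Aff.mul_b, hx, hy]; ring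
  let aHom : Aff.C0 F →* Fˣ := { toFun := fun x => x.1.a, map_one' := rfl, map_mul' := fun _ _ => rfl }
  let eC : Fˣ →* Aff.C0 F :=
    { toFun := fun a => ⟨⟨a, 0⟩, rfl⟩
      map_one' := rfl
      map_mul' := fun a b => by
        apply Subtype.ext
        apply Aff.ext
        · rfl
        · show (0 : F) = (a : F) * 0 + 0
          ring }
  have hB : IrrBlock M (Aff.C0 F).subtype χ =
      (fun ψ' : Fˣ →* ℂˣ => fun x : Aff.C0 F => (ψ' x.1.a : ℂ)) '' S := by
    ext θ
    constructor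
    · rintro ⟨h1, h2⟩
      obtain ⟨φ, rfl⟩ := irr_comm hcommC h1
      have e : (fun x : Aff.C0 F => (φ x : ℂ)) =
          fun x : Aff.C0 F => ((φ.comp eC) x.1.a : ℂ) := by
        funext x
        have hx : (x : Aff F).b = 0 := x.2
        have : eC x.1.a = x := by
          apply Subtype.ext
          exact Aff.ext rfl hx.symm
        rw [MonoidHom.comp_apply, this]
      rw [e] at h2 ⊢
      exact ⟨φ.comp eC, (hlab2 _).1 h2, rfl⟩
    · rintro ⟨ψ', h1, rfl⟩
      exact ⟨linear_mem_Irr (ψ'.comp aHom), (hlab2 ψ').2 h1⟩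
  have hAB : (IrrBlock M (⊤ : Subgroup (Aff F)).subtype χ).ncard =
      (IrrBlock M (MonoidHom.id (Aff F)) χ).ncard :=
    ncard_IrrBlock_equiv M χ _ _ Subgroup.topEquiv (fun h => IsConj.refl _)
  rw [hAB, hA, hB, Set.ncard_image_of_injective, Set.ncard_image_of_injective]
  · intro ψ1 ψ2 h
    apply MonoidHom.ext
    intro a
    exact Units.ext (congrFun h ⟨⟨a, 0⟩, rfl⟩)
  · intro ψ1 ψ2 h
    apply MonoidHom.ext
    intro a
    exact Units.ext (congrFun h ⟨a, 0⟩)

end Pool.Agent.Helper79_WRA.H46
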