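import Pool.Agent.Helper79_WRA.StmtB

/-!
WRA, module RES1: transport to the stabiliser of the family.
-/

open scoped BigOperators

noncomputable section

namespace Pool.Agent.Helper79_WRA.H46

open Pool.Agent.Helper51_AWC

section LLsec

variable {G Ω L : Type} [Group G] [Group L] [MulAction L Ω]

theorem mem_LL {β : Ω → G → ℂ} (hβ : ∀ i, β i ∈ Irr G) {h : L} :
    h ∈ LL L β ↔ ∀ j, β (h⁻¹ • j) = β j := by
  rw [mem_topSt]
  constructor
  · intro H j
    obtain ⟨g, -, hg⟩ := H j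
    funext y
    rw [← hg y, irr_conj (hβ j)]
  · intro H j
    refine ⟨1, ?_, ?_⟩
    · intro R hR
      have h1 : R = fun _ => ⊥ := by simpa [triv] using hR
      rw [h1]
      exact conjS_one _
    · intro y
      rw [one_mul, inv_one, mul_one, H j]

theorem LL_tr {β : Ω → G → ℂ} (hβ : ∀ i, β i ∈ Irr G) (l : L) :
    LL L (tr l β) = conjS l (LL L β) := by
  ext h
  rw [mem_conjS, mem_LL hβ, mem_LL (β := tr l β) (fun i => hβ _)]
  constructor
  · intro H j
    have h1 := H (l • j)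
    unfold tr at h1
    rw [inv_smul_smul, ← mul_smul, ← mul_smul] at h1
    rw [← h1]
    congr 1
    congr 1
    group
  · intro H j
    have h1 := H (l⁻¹ • j)
    unfold tr
    rw [← h1, ← mul_smul, ← mul_smul]
    congr 1
    congr 1
    group

end LLsec

theorem red_field {ℓ : ℕ} [hℓ : Fact ℓ.Prime] {M : Ideal (integralClosure ℤ ℂ)} [hM : M.IsMaximal]
    (hℓM : (ℓ : integralClosure ℤ ℂ) ∈ M) {a b : FF M} {n : ℕ} (h : a ^ (ℓ ^ n) = b ^ (ℓ ^ n)) :
    a = b := by
  have hnt : Nontrivial (FF M) := Ideal.Quotient.nontrivial_iff.2 hM.ne_top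
  have hdom : IsDomain (FF M) := Ideal.Quotient.isDomain M
  have hchar : CharP (FF M) ℓ := by
    have h0 : ((ℓ : ℕ) : FF M) = 0 := by
      have : (Ideal.Quotient.mk M) (ℓ : integralClosure ℤ ℂ) = 0 :=
        Ideal.Quotient.eq_zero_iff_mem.2 hℓM
      rw [← this, map_natCast]
    exact (CharP.charP_iff_prime_eq_zero hℓ.out).2 h0
  have h1 : (a - b) ^ (ℓ ^ n) = 0 := by rw [sub_pow_char_pow, h, sub_self]
  exact sub_eq_zero.1 (eq_zero_of_pow_eq_zero h1)

section chain

variable {L : Type} [Group L]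

theorem topP_mem {c : Finset (Subgroup L)} (hne : c.Nonempty)
    (hc : IsChain (· ≤ ·) (c : Set (Subgroup L))) : topP c ∈ c := by
  classical
  obtain ⟨D, hD, hmax⟩ := c.exists_maximal hne
  have h1 : ∀ E ∈ c, E ≤ D := by
    intro E hE
    rcases hc.total hE hD with h | h
    · exact h
    · exact hmax hE h
  have h2 : topP c = D := by
    apply le_antisymm
    · exact iSup₂_le h1
    · exact le_iSup₂_of_le D hD le_rfl
  rw [h2]; exact hD

theorem le_topP {c : Finset (Subgroup L)} {D : Subgroup L} (hD : D ∈ c) : D ≤ topP c :=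
  le_iSup₂_of_le D hD le_rfl

theorem card_fibre {ℓ : ℕ} [Fact ℓ.Prime] {Ω : Type} [Finite Ω] [MulAction L Ω]
    {c : Finset (Subgroup L)} (hP : IsPGroup ℓ (topP c)) (i : Ω) :
    ∃ n, Nat.card {i' : Ω // (qq c i' : Dl c Ω) = qq c i} = ℓ ^ n := by
  have := Fintype.ofFinite Ω
  obtain ⟨n, hn⟩ := hP.card_orbit i
  refine ⟨n, ?_⟩
  rw [← hn]
  apply Nat.card_congr
  refine Equiv.subtypeEquivRight fun i' => ?_
  rw [eq_comm, qq_eq_iff, MulAction.mem_orbit_iff]
  constructor
  · rintro ⟨p, hp, h⟩; exact ⟨⟨p, hp⟩, h⟩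
  · rintro ⟨p, hp⟩; exact ⟨p, p.2, hp⟩

theorem card_fibre_smul {Ω : Type} [MulAction L Ω]
    {c : Finset (Subgroup L)} (k : stab c) (i : Ω) :
    Nat.card {i' : Ω // (qq c i' : Dl c Ω) = qq c ((k : L) • i)} =
      Nat.card {i' : Ω // (qq c i' : Dl c Ω) = qq c i} := by
  symm
  apply Nat.card_congr
  refine (MulAction.toPerm (k : L) : Equiv.Perm Ω).subtypeEquiv fun i' => ?_
  rw [MulAction.toPerm_apply, ← smul_qq, ← smul_qq]
  exact (MulAction.injective k).eq_iff.symm

/-- the stabiliser of `α` in `stab c` -/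
theorem mem_LL_alpha (hDzu : DzuStmt) {ℓ : ℕ} [Fact ℓ.Prime] {M : Ideal (integralClosure ℤ ℂ)}
    [M.IsMaximal] (hℓM : (ℓ : integralClosure ℤ ℂ) ∈ M) {G : Type} [Group G] [Finite G]
    (hG : opCore ℓ G = ⊥) {Ω : Type} [Finite Ω] [MulAction L Ω] {c : Finset (Subgroup L)}
    (hP : IsPGroup ℓ (topP c)) {β : Ω → G → ℂ} {α : Dl c Ω → G → ℂ}
    (h : TwPair ℓ M (qq c) β α) (k : stab c) : k ∈ LL (stab c) α ↔ (k : L) ∈ LL L β := by
  rw [mem_LL (fun j => (h.dz' j).1), mem_LL (fun i => (h.dz i).1)]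
  have key : ∀ i : Ω, α (k⁻¹ • qq c i) = α (qq c i) ↔ β ((k : L)⁻¹ • i) = β i := by
    intro i
    obtain ⟨n, hn⟩ := card_fibre (ℓ := ℓ) hP i
    have hn' : Nat.card {i' : Ω // (qq c i' : Dl c Ω) = qq c ((k : L)⁻¹ • i)} = ℓ ^ n := by
      rw [← hn]
      exact card_fibre_smul k⁻¹ i
    have t1 := h.tw i n hn
    have t2 := h.tw ((k : L)⁻¹ • i) n hn'
    have e1 : k⁻¹ • (qq c i : Dl c Ω) = qq c ((k : L)⁻¹ • i) := smul_qq c k⁻¹ i
    rw [e1]
    constructor
    · intro hh
      refine hDzu ℓ M hℓM G hG _ (h.dz _) _ (h.dz i).1 ?_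
      funext g
      apply red_field hℓM (n := n)
      rw [← t2 g, hh, t1 g]
    · intro hh
      refine hDzu ℓ M hℓM G hG _ (h.dz' _) _ (h.dz' _).1 ?_
      funext g
      rw [t2 g, hh, t1 g]
  constructor
  · intro H i
    exact (key i).1 (H _)
  · intro H j
    obtain ⟨i, rfl⟩ := qq_surjective c j
    exact (key i).2 (H i)

end chain

theorem conjS_subgroupOf {L : Type} [Group L] {U : Subgroup L} (u : U) (E : Subgroup L) :
    conjS u (E.subgroupOf U) = (conjS (u : L) E).subgroupOf U := by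
  ext x
  rw [mem_conjS, Subgroup.mem_subgroupOf, Subgroup.mem_subgroupOf, mem_conjS]
  rfl

theorem subgroupOf_inj' {L : Type} [Group L] {U E F : Subgroup L} (hE : E ≤ U) (hF : F ≤ U) :
    E.subgroupOf U = F.subgroupOf U ↔ E = F := by
  rw [Subgroup.subgroupOf_inj, inf_eq_left.2 hE, inf_eq_left.2 hF]

theorem conjS_conjS_iff {L : Type} [Group L] (l u : L) (D : Subgroup L) :
    conjS u (conjS l⁻¹ D) = conjS l⁻¹ D ↔ conjS (l * u * l⁻¹) D = D := by
  rw [← (conjS_injective l).eq_iff, conjS_conjS, conjS_conjS, conjS_conjS, mul_inv_cancel,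
    conjS_one]

theorem mem_conjS' {L : Type} [Group L] {l x : L} {D : Subgroup L} :
    l * x * l⁻¹ ∈ conjS l D ↔ x ∈ D := by
  rw [mem_conjS]
  have : l⁻¹ * (l * x * l⁻¹) * l = x := by group
  rw [this]

theorem conjS_le_of_mem {L : Type} [Group L] {U E : Subgroup L} (hE : E ≤ U) {u : L}
    (hu : u ∈ U) : conjS u E ≤ U := by
  intro x hx
  rw [mem_conjS] at hx
  have h1 : u * (u⁻¹ * x * u) * u⁻¹ ∈ U := U.mul_mem (U.mul_mem hu (hE hx)) (U.inv_mem hu)
  have : u * (u⁻¹ * x * u) * u⁻¹ = x := by group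
  rwa [this] at h1

open Classical in
theorem mem_T0 {L : Type} [Group L] {U0 : Subgroup L} {c : Finset (Subgroup L)} {l : L}
    (hc : ∀ D ∈ c, conjS l⁻¹ D ≤ U0) (u : U0) :
    u ∈ stab (inU U0 (c.image (conjS l⁻¹))) ↔ l * (u : L) * l⁻¹ ∈ stab c := by
  rw [mem_stab, mem_stab]
  constructor
  · intro H D hD
    have h1 := H ((conjS l⁻¹ D).subgroupOf U0)
      (Finset.mem_image_of_mem _ (Finset.mem_image_of_mem _ hD))
    rw [conjS_subgroupOf, subgroupOf_inj' (conjS_le_of_mem (hc D hD) u.2) (hc D hD),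
      conjS_conjS_iff] at h1
    exact h1
  · intro H E hE
    obtain ⟨E', hE', rfl⟩ := Finset.mem_image.1 hE
    obtain ⟨D, hD, rfl⟩ := Finset.mem_image.1 hE'
    rw [conjS_subgroupOf, subgroupOf_inj' (conjS_le_of_mem (hc D hD) u.2) (hc D hD),
      conjS_conjS_iff]
    exact H D hD

theorem isConj_iff_U {L : Type} [Group L] {U0 U : Subgroup L} {l : L} (hU : U = conjS l U0)
    (g t : U0) : IsConj g t ↔ ∃ u ∈ U, l * (t : L) * l⁻¹ = u * (l * (g : L) * l⁻¹) * u⁻¹ := by
  rw [isConj_iff]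
  constructor
  · rintro ⟨c0, hc0⟩
    refine ⟨l * c0 * l⁻¹, ?_, ?_⟩
    · rw [hU, mem_conjS']; exact c0.2
    · rw [← hc0]
      push_cast
      group
  · rintro ⟨u, hu, h⟩
    rw [hU, mem_conjS] at hu
    refine ⟨⟨l⁻¹ * u * l, hu⟩, ?_⟩
    apply Subtype.ext
    have h1 : (t : L) = l⁻¹ * (l * (t : L) * l⁻¹) * l := by group
    rw [h1, h]
    push_cast
    group

theorem res1 (hDzu : DzuStmt) : Res1Stmt := by
  intro ℓ hℓ M hM hℓM G _ _ hG Ω L _ _ _ _ αs μ hαs hμ c hc β α hTw l hβ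
  classical
  have := Fintype.ofFinite L
  obtain ⟨hc1, hc2, hc3⟩ := mem_chainsOn.1 hc
  have hPmem : topP c ∈ c := topP_mem ⟨_, hc2⟩ hc3
  have hP : IsPGroup ℓ (topP c) := (mem_psubIn.1 (hc1 hPmem)).2
  have hβI : ∀ i, β i ∈ Irr G := fun i => (hTw.dz i).1
  have hU : LL L β = conjS l (LL L αs) := by
    rw [hβ]; exact LL_tr (fun i => (hαs i).1) l
  have htop : topP c ≤ LL L β := by
    intro p hp
    rw [mem_LL hβI]
    intro j
    apply hTw.fib
    rw [qq_eq_iff]
    exact ⟨p, hp, by rw [smul_inv_smul]⟩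
  set U := LL L β with hUdef
  set U0 := LL L αs with hU0def
  have hcU : ∀ D ∈ c, conjS l⁻¹ D ≤ U0 := by
    intro D hD x hx
    rw [mem_conjS, inv_inv] at hx
    have h1 : l * x * l⁻¹ ∈ conjS l U0 := by
      rw [← hU]; exact htop (le_topP hD hx)
    exact mem_conjS'.1 h1
  set T0 := stab (inU U0 (c.image (conjS l⁻¹))) with hT0
  have hmem : ∀ k : stab c, k ∈ LL (stab c) α ↔ (k : L) ∈ U := fun k =>
    mem_LL_alpha hDzu hℓM hG hP hTw k
  -- the isomorphism
  let φ1 : T0 →* stab c := ((MulAut.conj l).toMonoidHom.comp (U0.subtype.comp T0.subtype)).codRestrict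
    (stab c) (fun t => (mem_T0 hcU (t : U0)).1 t.2)
  have hφ1 : ∀ t : T0, ((φ1 t : stab c) : L) = l * ((t : U0) : L) * l⁻¹ := fun t => rfl
  let φ2 : T0 →* LL (stab c) α := φ1.codRestrict (LL (stab c) α) (fun t => by
    rw [hmem, hφ1, hU, mem_conjS']
    exact (t : U0).2)
  have hφ2 : ∀ t : T0, ((φ2 t : stab c) : L) = l * ((t : U0) : L) * l⁻¹ := fun t => rfl
  have hbij : Function.Bijective φ2 := by
    constructor
    · intro t t' h
      have h1 := hφ2 t
      rw [h, hφ2 t'] at h1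
      have h2 : ((t' : U0) : L) = ((t : U0) : L) := mul_left_cancel (mul_right_cancel h1)
      exact (Subtype.ext (Subtype.ext h2)).symm
    · intro k
      have hk : ((k : stab c) : L) ∈ U := (hmem k).1 k.2
      rw [hU, mem_conjS] at hk
      have e1 : l * (l⁻¹ * ((k : stab c) : L) * l) * l⁻¹ = ((k : stab c) : L) := by group
      refine ⟨⟨⟨l⁻¹ * ((k : stab c) : L) * l, hk⟩, (mem_T0 hcU _).2 ?_⟩, ?_⟩
      · show l * (l⁻¹ * ((k : stab c) : L) * l) * l⁻¹ ∈ stab c
        rw [e1]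
        exact (k : stab c).2
      · apply Subtype.ext
        apply Subtype.ext
        rw [hφ2]
        exact e1
  let φ : T0 ≃* LL (stab c) α := MulEquiv.ofBijective φ2 hbij
  have hφ : ∀ t : T0, (((φ t : LL (stab c) α) : stab c) : L) = l * ((t : U0) : L) * l⁻¹ :=
    fun t => rfl
  unfold weight
  rw [← hT0, ← Nat.card_congr φ.toEquiv]
  congr 1
  have h1 : l * ((1 : U0) : L) * l⁻¹ = 1 := by simp
  have hif : ∀ {X : Type} [Fintype X] (p : X → Prop) [DecidablePred p] (f : X → ℂ),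
      (∑ᶠ (x : X) (_ : p x), f x) = ∑ x, if p x then f x else 0 := by
    intro X _ p _ f
    rw [finsum_eq_sum_of_fintype]
    refine Finset.sum_congr rfl fun x _ => ?_
    rw [finsum_eq_if]
  -- first key identity
  have K1 : ∀ lam ∈ IrrS (LL (stab c) α), ∀ g : U0,
      omega T0.subtype (fun t : T0 => lam (φ t)) g =
        (∑ᶠ (k : stab c) (_ : ∃ u ∈ U, (k : L) = u * (l * (g : L) * l⁻¹) * u⁻¹), lam k) /
          lam 1 := by
    intro lam hlam g
    unfold omega
    rw [hif, hif]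
    congr 1
    · refine Fintype.sum_of_injective (fun t : T0 => ((φ t : LL (stab c) α) : stab c)) ?_ _ _ ?_ ?_
      · intro t t' h
        exact φ.injective (Subtype.ext h)
      · intro k hk
        have hk' : k ∉ LL (stab c) α := by
          intro hk'
          exact hk ⟨φ.symm ⟨k, hk'⟩, by simp⟩
        rw [hlam.1 k hk', ite_self]
      · intro t
        have e := isConj_iff_U hU g (t : U0)
        by_cases hh : IsConj g (t : U0)
        · rw [if_pos (show IsConj g (T0.subtype t) from hh), if_pos]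
          rw [hφ]
          exact e.1 hh
        · rw [if_neg (show ¬ IsConj g (T0.subtype t) from hh), if_neg]
          rw [hφ]
          exact fun h => hh (e.2 h)
    · show lam (φ 1 : LL (stab c) α) = lam 1
      rw [map_one]
      rfl
  have K2 : ∀ g : U0, omega (MonoidHom.id U0) (resT U0 μ) g =
      ulab U (fun x => μ (l⁻¹ * x * l)) (l * (g : L) * l⁻¹) := by
    intro g
    unfold omega ulab
    rw [hif, hif]
    congr 1
    · refine Fintype.sum_of_injective (fun t : U0 => l * (t : L) * l⁻¹) ?_ _ _ ?_ ?_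
      · intro t t' h
        exact Subtype.ext (mul_left_cancel (mul_right_cancel h))
      · intro x hx
        rw [if_neg]
        rintro ⟨u, hu, h⟩
        apply hx
        have hxU : x ∈ U := by
          rw [h]
          refine U.mul_mem (U.mul_mem hu ?_) (U.inv_mem hu)
          rw [hU, mem_conjS']
          exact g.2
        rw [hU, mem_conjS] at hxU
        exact ⟨⟨l⁻¹ * x * l, hxU⟩, by simp [mul_assoc]⟩
      · intro t
        have e := isConj_iff_U hU g t
        have e1 : l⁻¹ * (l * (t : L) * l⁻¹) * l = t := by group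
        by_cases hh : IsConj g t
        · rw [if_pos (show IsConj g (MonoidHom.id U0 t) from hh), if_pos (e.1 hh), e1]
          rfl
        · rw [if_neg (show ¬ IsConj g (MonoidHom.id U0 t) from hh), if_neg (fun h => hh (e.2 h))]
    · show μ 1 = μ (l⁻¹ * 1 * l)
      congr 1
      group
  have hLab : ∀ lam ∈ IrrS (LL (stab c) α), (LabC M c U lam (fun x => μ (l⁻¹ * x * l)) ↔
      ∀ g : U0, Cong M (omega T0.subtype (fun t : T0 => lam (φ t)) g)
        (omega (MonoidHom.id U0) (resT U0 μ) g)) := by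
    intro lam hlam
    constructor
    · intro H g
      rw [K1 lam hlam, K2]
      apply H
      rw [hU, mem_conjS']
      exact g.2
    · intro H h hh
      rw [hU, mem_conjS] at hh
      have h2 := H ⟨l⁻¹ * h * l, hh⟩
      rw [K1 lam hlam, K2] at h2
      have e1 : l * (l⁻¹ * h * l) * l⁻¹ = h := by group
      simp only [e1] at h2
      exact h2
  apply Set.ncard_congr (fun lam _ => fun t : T0 => lam (φ t))
  · rintro lam ⟨h2, h3⟩
    exact ⟨irr_comp_equiv φ h2.2, (hLab lam h2).1 h3⟩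
  · rintro lam lam' ⟨h2, -⟩ ⟨h3, -⟩ h
    apply IrrS_ext h2 h3
    intro x
    have := congrFun h (φ.symm x)
    simpa using this
  · rintro ϑ ⟨h2, h3⟩
    obtain ⟨a, ha, hae⟩ := exists_IrrS (LL (stab c) α) (irr_comp_equiv φ.symm h2)
    have e : (fun t : T0 => a (φ t)) = ϑ := by
      funext t
      rw [hae]
      exact congrArg ϑ (φ.symm_apply_apply t)
    refine ⟨a, ⟨ha, (hLab a ha).2 ?_⟩, e⟩
    rw [e]
    exact h3

end Pool.Agent.Helper79_WRA.H46
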