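import Pool.Agent.Helper46_WRA.Res1

/-!
WRA, module RESUM: resummation over the families of characters of defect zero.
-/

open scoped BigOperators

noncomputable section

namespace Pool.Agent.Helper79_WRA.H46

open Pool.Agent.Helper51_AWC

/-! ### The subgroups of `U0` inside `L`, conjugated by `l` -/

section emb

variable {L : Type} [Group L]

/-- `E ↦ l E l⁻¹` from the subgroups of `U0` to those of `L` -/
def emb (U0 : Subgroup L) (l : L) : Subgroup U0 ↪o Subgroup L :=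
  OrderEmbedding.ofMapLEIff (fun E => conjS l (E.map U0.subtype)) (by
    intro E F
    rw [conjS_mono, Subgroup.map_le_map_iff_of_injective U0.subtype_injective])

theorem emb_apply (U0 : Subgroup L) (l : L) (E : Subgroup U0) :
    emb U0 l E = conjS l (E.map U0.subtype) := rfl

theorem conjS_emb (U0 : Subgroup L) (l : L) (E : Subgroup U0) :
    conjS l⁻¹ (emb U0 l E) = E.map U0.subtype := by
  rw [emb_apply, conjS_conjS, inv_mul_cancel, conjS_one]

theorem emb_subgroupOf {U0 : Subgroup L} {l : L} {D : Subgroup L} (h : conjS l⁻¹ D ≤ U0) :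
    emb U0 l ((conjS l⁻¹ D).subgroupOf U0) = D := by
  rw [emb_apply, Subgroup.map_subgroupOf_eq_of_le h, conjS_conjS, mul_inv_cancel, conjS_one]

theorem emb_bot (U0 : Subgroup L) (l : L) : emb U0 l ⊥ = ⊥ := by
  rw [emb_apply, Subgroup.map_bot]
  exact Subgroup.map_bot _

open Classical in
theorem inU_emb (U0 : Subgroup L) (l : L) (e : Finset (Subgroup U0)) :
    inU U0 ((e.map (emb U0 l).toEmbedding).image (conjS l⁻¹)) = e := by
  unfold inU
  ext E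
  rw [Finset.mem_image]
  constructor
  · rintro ⟨E', hE', rfl⟩
    obtain ⟨D, hD, rfl⟩ := Finset.mem_image.1 hE'
    obtain ⟨F, hF, rfl⟩ := Finset.mem_map.1 hD
    have h1 : (conjS l⁻¹ ((emb U0 l).toEmbedding F)).subgroupOf U0 = F := by
      show (conjS l⁻¹ (emb U0 l F)).subgroupOf U0 = F
      rw [conjS_emb]
      exact Subgroup.comap_map_eq_self_of_injective U0.subtype_injective F
    rw [h1]; exact hF
  · intro hE
    refine ⟨E.map U0.subtype, Finset.mem_image.2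
      ⟨emb U0 l E, Finset.mem_map_of_mem _ hE, conjS_emb U0 l E⟩, ?_⟩
    exact Subgroup.comap_map_eq_self_of_injective U0.subtype_injective E

open Classical in
theorem psubIn_map_emb [Finite L] (ℓ : ℕ) (U0 : Subgroup L) (l : L) :
    (psubIn ℓ (⊤ : Subgroup U0)).map (emb U0 l).toEmbedding =
      (psubIn ℓ (⊤ : Subgroup L)).filter (fun D => conjS l⁻¹ D ≤ U0) := by
  ext D
  rw [Finset.mem_map, Finset.mem_filter, mem_psubIn]
  constructor
  · rintro ⟨E, hE, rfl⟩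
    rw [mem_psubIn] at hE
    refine ⟨⟨le_top, ?_⟩, ?_⟩
    · exact (hE.2.map _).map _
    · show conjS l⁻¹ (emb U0 l E) ≤ U0
      rw [conjS_emb]
      exact Subgroup.map_subtype_le E
  · rintro ⟨⟨-, h1⟩, h2⟩
    refine ⟨(conjS l⁻¹ D).subgroupOf U0, ?_, emb_subgroupOf h2⟩
    rw [mem_psubIn]
    exact ⟨le_top, (conjS_pgroup h1).comap_of_injective _ U0.subtype_injective⟩

open Classical in
theorem sum_chain_emb [Finite L] (ℓ : ℕ) (U0 : Subgroup L) (l : L)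
    (w : Finset (Subgroup U0) → ℤ) :
    ∑ c ∈ (chainsOn (psubIn ℓ (⊤ : Subgroup L)) ⊥).filter (fun c => ∀ D ∈ c, conjS l⁻¹ D ≤ U0),
      (-1) ^ (c.card + 1) * w (inU U0 (c.image (conjS l⁻¹))) =
    ∑ e ∈ chainsOn (psubIn ℓ (⊤ : Subgroup U0)) ⊥, (-1) ^ (e.card + 1) * w e := by
  have h1 : (chainsOn (psubIn ℓ (⊤ : Subgroup L)) ⊥).filter
      (fun c => ∀ D ∈ c, conjS l⁻¹ D ≤ U0) =
      chainsOn ((psubIn ℓ (⊤ : Subgroup U0)).map (emb U0 l).toEmbedding) (emb U0 l ⊥) := by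
    ext c
    rw [Finset.mem_filter, mem_chainsOn, mem_chainsOn, psubIn_map_emb, emb_bot]
    constructor
    · rintro ⟨⟨a1, a2, a3⟩, a4⟩
      exact ⟨fun D hD => Finset.mem_filter.2 ⟨a1 hD, a4 D hD⟩, a2, a3⟩
    · rintro ⟨a1, a2, a3⟩
      exact ⟨⟨fun D hD => (Finset.mem_filter.1 (a1 hD)).1, a2, a3⟩,
        fun D hD => (Finset.mem_filter.1 (a1 hD)).2⟩
  rw [h1, sum_chainsOn_map]
  refine Finset.sum_congr rfl fun e _ => ?_
  rw [Finset.card_map, inU_emb]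

end emb

/-! ### Twists of families -/

section tw

variable {ℓ : ℕ} [hℓ : Fact ℓ.Prime] {M : Ideal (integralClosure ℤ ℂ)} [hM : M.IsMaximal]
  {G : Type} [Group G] [Finite G]

omit hℓ hM in
theorem dz_finite : (DZ ℓ M G).Finite := by
  have := Fintype.ofFinite G
  exact irr_finite'.subset fun _ h => h.1

theorem tw_surj (hDzt : DztStmt) (hDzu : DzuStmt) (hℓM : (ℓ : integralClosure ℤ ℂ) ∈ M)
    (hG : opCore ℓ G = ⊥) (n : ℕ) {η : G → ℂ} (hη : η ∈ DZ ℓ M G) :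
    ∃ ξ ∈ DZ ℓ M G, η 1 = ξ 1 ∧ IsTw ℓ M n ξ η := by
  have H := hDzt ℓ M hℓM G hG
  choose! f hf using fun (ξ : G → ℂ) (hξ : ξ ∈ DZ ℓ M G) => H ξ hξ n
  have hfin : Finite (DZ ℓ M G) := dz_finite (ℓ := ℓ) (M := M) (G := G)
  let g : DZ ℓ M G → DZ ℓ M G := fun ξ => ⟨f ξ, (hf ξ ξ.2).1⟩
  have hg : Function.Injective g := by
    intro ξ ξ' h
    apply Subtype.ext
    refine hDzu ℓ M hℓM G hG _ ξ.2 _ ξ'.2.1 ?_
    funext y
    apply red_field hℓM (n := n)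
    rw [← (hf ξ ξ.2).2.2 y, ← (hf ξ' ξ'.2).2.2 y]
    have : f ξ = f ξ' := congrArg Subtype.val h
    rw [this]
  obtain ⟨ξ, hξ⟩ := (Finite.injective_iff_surjective.1 hg) ⟨η, hη⟩
  have h1 : f ξ = η := congrArg Subtype.val hξ
  refine ⟨ξ, ξ.2, ?_, ?_⟩
  · rw [← h1]; exact (hf ξ ξ.2).2.1
  · rw [← h1]; exact (hf ξ ξ.2).2.2

variable {L : Type} [Group L] {Ω : Type} [Finite Ω] [MulAction L Ω] {c : Finset (Subgroup L)}

theorem alpha_unique (hDzu : DzuStmt) (hℓM : (ℓ : integralClosure ℤ ℂ) ∈ M)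
    (hG : opCore ℓ G = ⊥) (hP : IsPGroup ℓ (topP c)) {β : Ω → G → ℂ} {α α' : Dl c Ω → G → ℂ}
    (h : TwPair ℓ M (qq c) β α) (h' : TwPair ℓ M (qq c) β α') : α = α' := by
  funext j
  obtain ⟨i, rfl⟩ := qq_surjective c j
  obtain ⟨n, hn⟩ := card_fibre (ℓ := ℓ) hP i
  refine hDzu ℓ M hℓM G hG _ (h.dz' _) _ (h'.dz' _).1 ?_
  funext g
  rw [h.tw i n hn g, h'.tw i n hn g]

theorem beta_unique (hDzu : DzuStmt) (hℓM : (ℓ : integralClosure ℤ ℂ) ∈ M)
    (hG : opCore ℓ G = ⊥) (hP : IsPGroup ℓ (topP c)) {β β' : Ω → G → ℂ} {α : Dl c Ω → G → ℂ}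
    (h : TwPair ℓ M (qq c) β α) (h' : TwPair ℓ M (qq c) β' α) : β = β' := by
  funext i
  obtain ⟨n, hn⟩ := card_fibre (ℓ := ℓ) hP i
  refine hDzu ℓ M hℓM G hG _ (h.dz _) _ (h'.dz _).1 ?_
  funext g
  apply red_field hℓM (n := n)
  rw [← h.tw i n hn g, ← h'.tw i n hn g]

theorem exists_alpha (hDzt : DztStmt) (hℓM : (ℓ : integralClosure ℤ ℂ) ∈ M)
    (hG : opCore ℓ G = ⊥) (hP : IsPGroup ℓ (topP c)) {β : Ω → G → ℂ}
    (hβ : ∀ i, β i ∈ DZ ℓ M G)
    (hfib : ∀ i i' : Ω, (qq c i : Dl c Ω) = qq c i' → β i = β i') :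
    ∃ α, TwPair ℓ M (qq c) β α := by
  choose r hr using qq_surjective (Ω := Ω) c
  choose n hn using fun i : Ω => card_fibre (ℓ := ℓ) hP i
  choose f hf using fun j : Dl c Ω => hDzt ℓ M hℓM G hG (β (r j)) (hβ _) (n (r j))
  have e1 : ∀ i, β (r (qq c i)) = β i := fun i => hfib _ _ (hr _)
  refine ⟨f, hβ, fun j => (hf j).1, hfib, ?_, ?_⟩
  · intro i m hm
    have h1 : ℓ ^ m = ℓ ^ n (r (qq c i)) := by
      rw [← hm, ← hn (r (qq c i)), hr]
    have h2 : m = n (r (qq c i)) := Nat.pow_right_injective hℓ.out.two_le h1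
    have h3 := (hf (qq c i)).2.2
    rw [e1, ← h2] at h3
    exact h3
  · intro i
    rw [(hf (qq c i)).2.1, e1]

theorem exists_beta (hDzt : DztStmt) (hDzu : DzuStmt) (hℓM : (ℓ : integralClosure ℤ ℂ) ∈ M)
    (hG : opCore ℓ G = ⊥) (hP : IsPGroup ℓ (topP c)) {α : Dl c Ω → G → ℂ}
    (hα : ∀ j, α j ∈ DZ ℓ M G) : ∃ β : Ω → G → ℂ, TwPair ℓ M (qq c) β α := by
  choose r hr using qq_surjective (Ω := Ω) c
  choose n hn using fun i : Ω => card_fibre (ℓ := ℓ) hP i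
  choose f hf using fun j : Dl c Ω => tw_surj hDzt hDzu hℓM hG (n (r j)) (hα j)
  refine ⟨fun i => f (qq c i), fun i => (hf _).1, hα, ?_, ?_, ?_⟩
  · intro i i' h
    show f (qq c i) = f (qq c i')
    rw [h]
  · intro i m hm
    have h1 : ℓ ^ m = ℓ ^ n (r (qq c i)) := by
      rw [← hm, ← hn (r (qq c i)), hr]
    have h2 : m = n (r (qq c i)) := Nat.pow_right_injective hℓ.out.two_le h1
    rw [h2]
    exact (hf (qq c i)).2.2
  · intro i
    exact (hf (qq c i)).2.1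

end tw

theorem tr_tr {G Ω L : Type} [Group L] [MulAction L Ω] (l l' : L) (β : Ω → G → ℂ) :
    tr l (tr l' β) = tr (l * l') β := by
  funext i
  unfold tr
  rw [mul_inv_rev, mul_smul]

theorem tr_one {G Ω L : Type} [Group L] [MulAction L Ω] (β : Ω → G → ℂ) :
    tr (1 : L) β = β := by
  funext i
  unfold tr
  rw [inv_one, one_smul]

theorem mem_LL_iff_tr {G Ω L : Type} [Group G] [Group L] [MulAction L Ω] {β : Ω → G → ℂ}
    (hβ : ∀ i, β i ∈ Irr G) {h : L} : h ∈ LL L β ↔ tr h β = β := by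
  rw [mem_LL hβ]
  exact ⟨fun H => funext H, fun H i => congrFun H i⟩

/-- the chains whose members are conjugate into `U0` by `l⁻¹` -/
theorem fib_iff {ℓ : ℕ} {G Ω L : Type} [Group G] [Group L] [MulAction L Ω] [Finite L]
    {αs : Ω → G → ℂ} (hαs : ∀ i, αs i ∈ Irr G) {c : Finset (Subgroup L)}
    (hc : c ∈ chainsOn (psubIn ℓ (⊤ : Subgroup L)) ⊥) (l : L) :
    (∀ D ∈ c, conjS l⁻¹ D ≤ LL L αs) ↔
      ∀ i i' : Ω, (qq c i : Dl c Ω) = qq c i' → tr l αs i = tr l αs i' := by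
  obtain ⟨-, hc2, hc3⟩ := mem_chainsOn.1 hc
  have hPmem : topP c ∈ c := topP_mem ⟨_, hc2⟩ hc3
  have hI : ∀ i, tr l αs i ∈ Irr G := fun i => hαs _
  have h1 : (∀ D ∈ c, conjS l⁻¹ D ≤ LL L αs) ↔ topP c ≤ LL L (tr l αs) := by
    rw [LL_tr hαs]
    constructor
    · intro H x hx
      have h2 := H _ hPmem (mem_conjS'.2 hx)
      rw [mem_conjS]
      simpa using h2
    · intro H D hD x hx
      rw [mem_conjS, inv_inv] at hx
      exact mem_conjS'.1 (H (le_topP hD hx))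
  rw [h1]
  constructor
  · intro H i i' h
    obtain ⟨p, hp, rfl⟩ := qq_eq_iff.1 h
    have h2 := (mem_LL hI).1 (H hp) (p • i)
    rw [inv_smul_smul] at h2
    exact h2
  · intro H p hp
    rw [mem_LL hI]
    intro j
    apply H
    rw [qq_eq_iff]
    exact ⟨p, hp, by rw [smul_inv_smul]⟩

open Classical in
/-- the claim for one chain -/
theorem chain_sum (hBma : BmaStmt) (hBmb : BmbStmt) (hRes1 : Res1Stmt) (hDzt : DztStmt)
    (hDzu : DzuStmt) {ℓ : ℕ} [hℓ : Fact ℓ.Prime] {M : Ideal (integralClosure ℤ ℂ)}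
    [hM : M.IsMaximal] (hℓM : (ℓ : integralClosure ℤ ℂ) ∈ M) {G : Type} [Group G] [Finite G]
    (hG : opCore ℓ G = ⊥) {Ω L : Type} [Fintype Ω] [Group L] [Fintype L] [MulAction L Ω]
    {χ : Wreath G Ω L → ℂ} {αs : Ω → G → ℂ} {μ : L → ℂ} (hχ : χ ∈ Irr (Wreath G Ω L))
    (hαs : ∀ i, αs i ∈ DZ ℓ M G) (hμ : μ ∈ IrrS (LL L αs))
    (hval : ∀ Φ : Wreath G Ω L → ℂ, (∀ x y, Φ (y * x * y⁻¹) = Φ x) →
      val Φ χ = val Φ (et αs μ))
    {c : Finset (Subgroup L)} (hc : c ∈ chainsOn (psubIn ℓ (⊤ : Subgroup L)) ⊥) :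
    (Nat.card (LL L αs) : ℤ) *
      ∑ᶠ (α : Dl c Ω → G → ℂ) (_ : α ∈ dzFun ℓ M G (Dl c Ω)),
          (Nat.card (LL (stab c) α) : ℤ) *
            (({lam | lam ∈ IrrS (LL (stab c) α) ∧ GoodC M c χ α lam}.ncard : ℕ) : ℤ) =
      ∑ l : L, if (∀ D ∈ c, conjS l⁻¹ D ≤ LL L αs) then
        (weight M (resT (LL L αs) μ) (inU (LL L αs) (c.image (conjS l⁻¹))) : ℤ) else 0 := by
  have hαI : ∀ i, αs i ∈ Irr G := fun i => (hαs i).1
  obtain ⟨hc1, hc2, hc3⟩ := mem_chainsOn.1 hc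
  have hPmem : topP c ∈ c := topP_mem ⟨_, hc2⟩ hc3
  have hP : IsPGroup ℓ (topP c) := (mem_psubIn.1 (hc1 hPmem)).2
  set P : L → Prop := fun l => ∀ D ∈ c, conjS l⁻¹ D ≤ LL L αs with hPdef
  set W : (Dl c Ω → G → ℂ) → ℤ := fun α => (Nat.card (LL (stab c) α) : ℤ) *
    (({lam | lam ∈ IrrS (LL (stab c) α) ∧ GoodC M c χ α lam}.ncard : ℕ) : ℤ) with hW
  have hfib : ∀ l, P l ↔
      ∀ i i' : Ω, (qq c i : Dl c Ω) = qq c i' → tr l αs i = tr l αs i' :=
    fun l => fib_iff hαI hc l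
  have hex : ∀ l : L, P l → ∃ α, TwPair ℓ M (qq c) (tr l αs) α := fun l hl =>
    exists_alpha hDzt hℓM hG hP (fun i => hαs _) ((hfib l).1 hl)
  choose! A hA using hex
  have hWA : ∀ l, P l → W (A l) =
      (weight M (resT (LL L αs) μ) (inU (LL L αs) (c.image (conjS l⁻¹))) : ℤ) := by
    intro l hl
    rw [← hRes1 ℓ M hℓM G hG Ω L αs μ hαs hμ c hc (tr l αs) (A l) (hA l hl) l rfl]
    have hset : {lam | lam ∈ IrrS (LL (stab c) (A l)) ∧ GoodC M c χ (A l) lam} =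
        {lam | lam ∈ IrrS (LL (stab c) (A l)) ∧
          LabC M c (LL L (tr l αs)) lam (fun x => μ (l⁻¹ * x * l))} := by
      ext lam
      constructor
      · rintro ⟨h1, h2⟩
        exact ⟨h1, (hBma ℓ M hℓM G hG Ω L χ αs μ hχ hαs hμ hval c hc (tr l αs) (A l)
          (hA l hl) lam h1 h2).2 l rfl⟩
      · rintro ⟨h1, h2⟩
        exact ⟨h1, hBmb ℓ M hℓM G hG Ω L χ αs μ hχ hαs hμ hval c hc (tr l αs) (A l)
          (hA l hl) lam h1 l rfl h2⟩
    rw [hW]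
    simp only
    rw [hset]
    push_cast
    rfl
  have hR : (∑ l : L, if P l then
        (weight M (resT (LL L αs) μ) (inU (LL L αs) (c.image (conjS l⁻¹))) : ℤ) else 0) =
      ∑ l ∈ Finset.univ.filter P, W (A l) := by
    rw [Finset.sum_filter]
    refine Finset.sum_congr rfl fun l _ => ?_
    by_cases hl : P l
    · rw [if_pos hl, if_pos hl, hWA l hl]
    · rw [if_neg hl, if_neg hl]
  rw [hR, Finset.sum_comp W A]
  have hL : (∑ᶠ (α : Dl c Ω → G → ℂ) (_ : α ∈ dzFun ℓ M G (Dl c Ω)), W α) =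
      ∑ α ∈ (Finset.univ.filter P).image A, W α := by
    apply finsum_mem_eq_sum_of_inter_support_eq
    ext α
    constructor
    · rintro ⟨h1, h2⟩
      refine ⟨?_, h2⟩
      obtain ⟨β, hβ⟩ := exists_beta hDzt hDzu hℓM hG hP h1
      have hne : {lam | lam ∈ IrrS (LL (stab c) α) ∧ GoodC M c χ α lam}.Nonempty := by
        by_contra hcon
        rw [Set.not_nonempty_iff_eq_empty] at hcon
        apply h2
        show (Nat.card (LL (stab c) α) : ℤ) *
          (({lam | lam ∈ IrrS (LL (stab c) α) ∧ GoodC M c χ α lam}.ncard : ℕ) : ℤ) = 0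
        rw [hcon]
        simp
      obtain ⟨lam, h3, h4⟩ := hne
      obtain ⟨l, hl⟩ := (hBma ℓ M hℓM G hG Ω L χ αs μ hχ hαs hμ hval c hc β α
        hβ lam h3 h4).1
      subst hl
      have hPl : P l := (hfib l).2 hβ.fib
      rw [Finset.mem_coe, Finset.mem_image]
      exact ⟨l, Finset.mem_filter.2 ⟨Finset.mem_univ _, hPl⟩,
        alpha_unique hDzu hℓM hG hP (hA l hPl) hβ⟩
    · rintro ⟨h1, h2⟩
      refine ⟨?_, h2⟩
      rw [Finset.mem_coe, Finset.mem_image] at h1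
      obtain ⟨l, hl, rfl⟩ := h1
      exact fun j => (hA l (Finset.mem_filter.1 hl).2).dz' j
  rw [hL, Finset.mul_sum]
  refine Finset.sum_congr rfl fun α hα => ?_
  obtain ⟨l0, hl0, rfl⟩ := Finset.mem_image.1 hα
  have hPl0 : P l0 := (Finset.mem_filter.1 hl0).2
  have hcard : ((Finset.univ.filter P).filter (fun l => A l = A l0)).card =
      Nat.card (LL L αs) := by
    rw [Nat.card_eq_fintype_card, ← Finset.card_univ]
    refine Finset.card_bij' (fun l hl => ⟨l0⁻¹ * l, ?_⟩) (fun u _ => l0 * (u : L)) ?_ ?_ ?_ ?_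
    · rw [Finset.mem_filter, Finset.mem_filter] at hl
      have h1 := hA l hl.1.2
      rw [hl.2] at h1
      have h2 := beta_unique hDzu hℓM hG hP h1 (hA l0 hPl0)
      rw [mem_LL_iff_tr hαI, ← tr_tr, h2, tr_tr, inv_mul_cancel, tr_one]
    · intro l hl
      exact Finset.mem_univ _
    · intro u _
      have h1 : tr (l0 * (u : L)) αs = tr l0 αs := by
        rw [← tr_tr, (mem_LL_iff_tr hαI).1 u.2]
      have h2 : P (l0 * (u : L)) := by
        rw [hfib, h1]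
        exact (hfib l0).1 hPl0
      have h3 := hA _ h2
      rw [h1] at h3
      rw [Finset.mem_filter, Finset.mem_filter]
      exact ⟨⟨Finset.mem_univ _, h2⟩, alpha_unique hDzu hℓM hG hP h3 (hA l0 hPl0)⟩
    · intro l hl
      simp
    · intro u hu
      simp
  rw [hcard, nsmul_eq_mul]

theorem resum (hBma : BmaStmt) (hBmb : BmbStmt) (hRes1 : Res1Stmt) (hDzt : DztStmt)
    (hDzu : DzuStmt) : ResumStmt := by
  intro ℓ hℓ M hM hℓM G _ _ hG Ω L _ _ _ _ χ αs μ hχ hαs hμ hval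
  classical
  have := Fintype.ofFinite L
  have e1 : ∀ c ∈ chainsOn (psubIn ℓ (⊤ : Subgroup L)) ⊥,
      (Nat.card (LL L αs) : ℤ) * ((-1) ^ (c.card + 1) *
        ∑ᶠ (α : Dl c Ω → G → ℂ) (_ : α ∈ dzFun ℓ M G (Dl c Ω)),
          (Nat.card (LL (stab c) α) : ℤ) *
            (({lam | lam ∈ IrrS (LL (stab c) α) ∧ GoodC M c χ α lam}.ncard : ℕ) : ℤ)) =
      ∑ l : L, if (∀ D ∈ c, conjS l⁻¹ D ≤ LL L αs) then (-1) ^ (c.card + 1) *
        (weight M (resT (LL L αs) μ) (inU (LL L αs) (c.image (conjS l⁻¹))) : ℤ) else 0 := by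
    intro c hc
    have h1 := chain_sum hBma hBmb hRes1 hDzt hDzu hℓM hG hχ hαs hμ hval hc
    rw [mul_left_comm, h1, Finset.mul_sum]
    refine Finset.sum_congr rfl fun l _ => ?_
    rw [mul_ite, mul_zero]
  rw [Finset.mul_sum, Finset.sum_congr rfl e1, Finset.sum_comm]
  have e2 : ∀ l : L, (∑ c ∈ chainsOn (psubIn ℓ (⊤ : Subgroup L)) ⊥,
      if (∀ D ∈ c, conjS l⁻¹ D ≤ LL L αs) then (-1) ^ (c.card + 1) *
        (weight M (resT (LL L αs) μ) (inU (LL L αs) (c.image (conjS l⁻¹))) : ℤ) else 0) =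
      sum0 ℓ M (resT (LL L αs) μ) := by
    intro l
    rw [← Finset.sum_filter]
    unfold sum0
    convert sum_chain_emb ℓ (LL L αs) l (fun e => (weight M (resT (LL L αs) μ) e : ℤ)) using 2
    ext c
    simp only [Finset.mem_filter]
  rw [Finset.sum_congr rfl (fun l _ => e2 l), Finset.sum_const, nsmul_eq_mul,
    Finset.card_univ, Nat.card_eq_fintype_card]

end Pool.Agent.Helper79_WRA.H46
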